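import Pool.Agent.Q308.TwoInt.Fin

/-!
# The 2-interval-pattern problem for the model {<, crossing} over disjoint interval ground sets is
NP-complete

The reduction is from 3SAT. The ground set consists of blocks; the 2-intervals join intervals of
consecutive blocks and belong to groups, one for each variable of the formula. The demanded size is
such that all intervals of the ground set must be used. So each group carries a state (a guess
for the number of a true literal of the current clause, and a truth value) through the blocks.
As there is no nesting, the order of the groups is kept from block to block. The states are ordered
by the guess, increasingly in the first half and decreasingly in the second half of the blocks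
of a clause; so the guesses are nondecreasing and nonincreasing along the groups, hence all groups
make the same guess for each clause.
-/

namespace Pool.Agent.Results.MP_8c0258_lc.CrossPrecedeNPC

open Pool.Agent.NPC Pool.Agent.Q308.TwoInt

/-- **The 2-interval-pattern problem for the model {<, crossing} restricted to disjoint interval
ground sets is NP-complete**, and if a polynomial-time algorithm outputs a maximum comparable subset
for each finite set of 2-intervals with disjoint ground set, then `NP ⊆ P`. -/
theorem result : InNPP Pattern ∧ NPHardP Pattern ∧
    ∀ f : List Bool → List Bool, PolyTime f →
      (∀ l : List TI, IsInstance l → ∃ S : List TI, f (bits l) = bits S ∧ IsMaximum l S) →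
      ∀ L : Set (List Bool), InNP L → InP L :=
  ⟨inNPP_pattern, hardPr_pattern.toHardI.toNPHardP, collapse⟩

end Pool.Agent.Results.MP_8c0258_lc.CrossPrecedeNPC
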